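import Pool.Agent.Helper55.L2.W0
import Pool.Agent.Helper81.AT.Core
import Pool.Agent.Helper2.LT.Top

/-!
Project L2 (MP_b8862a_ag), block DATA: from the Lie algebra to the Euclidean data, modules which need not be self-dual. The two
long proofs are the ones of `AG.exists_in2_b` (helper81, helper90, helper2) and `AT.exists_wd'` (helper81).
-/

set_option linter.unusedSectionVars false
set_option linter.unusedVariables false

open Module LieModule LieAlgebra LieAlgebra.IsKilling AddMonoidAlgebra MTP.MF PF PF.W PF.L PF.CC TF TF.L PW PX AT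

attribute [local instance 100] LieRing.ofAssociativeRing

namespace L2

variable {K : Type*} [Field K] [CharZero K] [IsAlgClosed K]
  {L : Type*} [LieRing L] [LieAlgebra K L] [FiniteDimensional K L] [IsKilling K L]
  {H : LieSubalgebra K L} [H.IsCartanSubalgebra]
  {V : Type*} [AddCommGroup V] [Module K V] [FiniteDimensional K V]
  [LieRingModule L V] [LieModule K L V] {I : Type*} [Fintype I]

/-- the sum of the weights is zero -/
theorem sum_w (B : WB (V := V) H I) (α : H.root) : ∑ i, wt B i α = 0 := by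
  classical
  obtain ⟨e, f, ht, he, hf⟩ := exists_triple α
  have h1 : LinearMap.trace K V (toEnd K L V ((coroot α.1 : H) : L)) = 0 := by
    rw [← ht.lie_e_f, LieHom.map_lie, LieRing.of_associative_ring_bracket, map_sub, LinearMap.trace_mul_comm, sub_self]
  have h2 : LinearMap.trace K V (toEnd K L V ((coroot α.1 : H) : L)) = ∑ i, B.w i (coroot α.1) := by
    rw [LinearMap.trace_eq_matrix_trace K B.v, Matrix.trace]
    refine Finset.sum_congr rfl fun i _ => ?_
    rw [Matrix.diag_apply, LinearMap.toMatrix_apply, toEnd_apply_apply, B.lie_v, map_smul, Finsupp.smul_apply,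
      B.v.repr_self, Finsupp.single_eq_same, smul_eq_mul, mul_one]
  rw [h1] at h2
  have h3 : ((∑ i, wt B i α : ℤ) : K) = 0 := by
    rw [h2]
    push_cast
    exact Finset.sum_congr rfl fun i _ => (wt_spec B i α).symm
  exact_mod_cast h3

/-- The weights. -/
theorem lat_w' (B : WB (V := V) H I) (hsat : Sat' (Ph (rootSystem H)) (Xw B)) {d : ℤ} {Q : Dual K H →ₗ[K] Dual K H →ₗ[K] K}
    (hQ : ∀ (α : H.root) (ν : Dual K H) (h : H.root → ℤ), (∀ β : H.root, ν (coroot β.1) = (h β : K)) →
      (d : K) * Q ν ((rootSystem H).root α) = 4 * ((∑ j, h j * PF.CC.rt (rootSystem H) α j : ℤ) : K))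
    {y : H} {y' : EuclideanSpace ℝ H.root}
    (hy : ∀ α : H.root, ∃ k : ℤ, (rootSystem H).root α y = (k : K) ∧
      (inner ℝ (vec (PF.CC.rt (rootSystem H) α)) y' : ℝ) = (k : ℝ)) (i : I) :
    (∀ (ν : Dual K H) (h : H.root → ℤ), (∀ β : H.root, ν (coroot β.1) = (h β : K)) →
        (d : K) * Q ν (B.w i) = 4 * ((∑ j, h j * wt B i j : ℤ) : K)) ∧
    (∀ a : ℤ, 2 * B.w i y = (a : K) → (inner ℝ (vec (wt B i)) y' : ℝ) = (a : ℝ) / 2) ∧
    vec (wt B i) ∈ Submodule.span ℝ ((Ph (rootSystem H) : Finset (EuclideanSpace ℝ H.root)) :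
        Set (EuclideanSpace ℝ H.root)) := by
  classical
  have hx : vec (wt B i) ∈ Xw B := (mem_Xw B).2 ⟨i, rfl⟩
  obtain ⟨N, hN⟩ : ∃ N : ℕ, N = Fintype.card I := ⟨_, rfl⟩
  have hN0 : 0 < N := by
    rw [hN]
    exact Fintype.card_pos_iff.2 ⟨i⟩
  have hNK : (N : K) ≠ 0 := by exact_mod_cast hN0.ne'
  have hNR : (N : ℝ) ≠ 0 := by exact_mod_cast hN0.ne'
  have h0 : (N : ℝ) • vec (wt B i) = vec ((N : ℤ) • wt B i) := by
    ext α
    simp only [WithLp.ofLp_smul, Pi.smul_apply, smul_eq_mul, vec_apply]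
    push_cast
    rfl
  have h1 : (N : ℝ) • vec (wt B i) ∈ AddSubgroup.closure ((Ph (rootSystem H) : Finset (EuclideanSpace ℝ H.root)) :
        Set (EuclideanSpace ℝ H.root)) := by
    have h2 : (N : ℝ) • vec (wt B i) = ∑ j, (vec (wt B i) - vec (wt B j)) := by
      rw [Finset.sum_sub_distrib, Finset.sum_const, Finset.card_univ, ← hN, ← Nat.cast_smul_eq_nsmul ℝ]
      have h3 : ∑ j, vec (wt B j) = 0 := by
        ext α
        simp only [WithLp.ofLp_sum, Finset.sum_apply, vec_apply, WithLp.ofLp_zero, Pi.zero_apply]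
        exact_mod_cast sum_w B α
      rw [h3, sub_zero]
    rw [h2]
    exact AddSubgroup.sum_mem _ fun j _ => hsat.coset _ hx _ ((mem_Xw B).2 ⟨j, rfl⟩)
  obtain ⟨μ, g, k, h2, h3, h4, h5, h6⟩ := lat hQ hy h1
  have h7 : g = (N : ℤ) • wt B i := by
    apply vec_inj
    rw [← h2, h0]
  have h8 : μ = (N : K) • B.w i := by
    apply dual_ext
    intro α
    rw [h3, h7, LinearMap.smul_apply, wt_spec, Pi.smul_apply, smul_eq_mul, smul_eq_mul, Int.cast_mul, Int.cast_natCast]
  refine ⟨?_, ?_, hsat.span _ hx⟩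
  · intro ν h hν
    have h9 := h4 ν h hν
    rw [h8, h7, map_smul, smul_eq_mul] at h9
    have h10 : ∑ j, h j * ((N : ℤ) • wt B i) j = (N : ℤ) * ∑ j, h j * wt B i j := by
      rw [Finset.mul_sum]
      refine Finset.sum_congr rfl fun j _ => ?_
      rw [Pi.smul_apply, smul_eq_mul]
      ring
    rw [h10, Int.cast_mul, Int.cast_natCast] at h9
    apply mul_left_cancel₀ hNK
    linear_combination h9
  · intro a ha
    rw [h8, LinearMap.smul_apply, smul_eq_mul] at h5
    have h9 : ((N * a : ℤ) : K) = ((2 * k : ℤ) : K) := by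
      push_cast
      rw [← ha, ← h5]
      ring
    have h10 : (N : ℤ) * a = 2 * k := by exact_mod_cast h9
    have h11 : (N : ℝ) * a = 2 * k := by exact_mod_cast h10
    rw [inner_smul_left, conj_trivial] at h6
    apply mul_left_cancel₀ hNR
    rw [h6]
    linarith

/-- the trace identity for a given base, no form (as `AG.exists_in2_b`) -/
theorem exists_in3_b (b : (rootSystem H).Base) (B : WB (V := V) H I) [Nonempty I] [Nonempty H.root] [(rootSystem H).IsIrreducible]
    (hirr : ∀ W : Submodule K V, (∀ x : L, ∀ u ∈ W, ⁅x, u⁆ ∈ W) → W = ⊥ ∨ W = ⊤)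
    (hfaith : ∀ x : L, (∀ u : V, ⁅x, u⁆ = 0) → x = 0)
    {y : H} (a : I → ℤ) (ha : ∀ i, 2 * B.w i y = (a i : K)) (ha2 : ∀ i j, (2 : ℤ) ∣ a i - a j) :
    ∃ (t : I) (y' : EuclideanSpace ℝ H.root), (∀ i, Below b (B.w t) (B.w i)) ∧
      (∀ i, (inner ℝ (PF.CC.vec (PF.CC.wt B i)) y' : ℝ) = (a i : ℝ) / 2) ∧
      (∀ α : H.root, ∃ k : ℤ, (rootSystem H).root α y = (k : K) ∧
        (inner ℝ (PF.CC.vec (PF.CC.rt (rootSystem H) α)) y' : ℝ) = (k : ℝ)) ∧
      y' ∈ Submodule.span ℝ (PF.CC.Ph (rootSystem H) : Set (EuclideanSpace ℝ H.root)) ∧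
      4 * (Fintype.card I : ℝ) * cas (PF.CC.Ph (rootSystem H)) (PF.CC.vec (PF.CC.wt B t)) * inner ℝ y' y' =
        (∑ i, (a i : ℝ) ^ 2) * (finrank ℝ (Submodule.span ℝ (PF.CC.Ph (rootSystem H) : Set (EuclideanSpace ℝ H.root))) +
          (PF.CC.Ph (rootSystem H)).card) := by
  classical
  obtain ⟨Q, c, hQs, hQ, hQ3, hQ4, hQ5, hQ6⟩ := exists_cas2 B hirr hfaith b
  obtain ⟨t, htb, htone, htdom⟩ := exists_top B hirr b
  obtain ⟨d, hd0, hd⟩ := sn_const B hQs hQ
  have hsat := sat' B hirr
  have hdR : (0 : ℝ) < d := by exact_mod_cast hd0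
  have hdK : (d : K) ≠ 0 := by exact_mod_cast hd0.ne'
  have hS : ∀ α : H.root, 0 < ∑ i, wt B i α * wt B i α := fun α => (hQ α (fun i => wt B i α) fun i => wt_spec B i α).1
  have hQ2 : ∀ α μ, 2 * μ (coroot α.1) = ((∑ i, wt B i α * wt B i α : ℤ) : K) * Q μ ((rootSystem H).root α) :=
    fun α => (hQ α (fun i => wt B i α) fun i => wt_spec B i α).2
  have hQr : ∀ (α : H.root) (ν : Dual K H) (h : H.root → ℤ), (∀ β : H.root, ν (coroot β.1) = (h β : K)) →
      (d : K) * Q ν ((rootSystem H).root α) = 4 * ((∑ j, h j * PF.CC.rt (rootSystem H) α j : ℤ) : K) := by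
    intro α ν h hν
    have h1 := hQ2 α ν
    rw [hν] at h1
    have h2 := two_sum (rootSystem H) (wt_dual hν) α
    have h3 : (2 : K) * ((∑ j, h j * PF.CC.rt (rootSystem H) α j : ℤ) : K) =
        (h α : K) * ((∑ j, PF.CC.rt (rootSystem H) α j * PF.CC.rt (rootSystem H) α j : ℤ) : K) := by exact_mod_cast h2
    rw [← hd α, Int.cast_mul]
    linear_combination (-((∑ j, PF.CC.rt (rootSystem H) α j * PF.CC.rt (rootSystem H) α j : ℤ) : K)) * h1 - 2 * h3
  -- the grading element
  have hαy : ∀ α : H.root, ∃ k : ℤ, α.1 y = (k : K) := by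
    intro α
    obtain ⟨i, j, hij⟩ := B.root_apply hfaith α
    obtain ⟨k, hk⟩ := ha2 j i
    refine ⟨k, ?_⟩
    have h1 := hij y
    have h2 := ha i
    have h3 := ha j
    have h4 : ((a j - a i : ℤ) : K) = ((2 * k : ℤ) : K) := by rw [hk]
    push_cast at h4
    have h5 : (2 : K) * (α.1 y - k) = 0 := by linear_combination (-2) * h1 + h3 - h2 + h4
    exact sub_eq_zero.1 ((mul_eq_zero.1 h5).resolve_left two_ne_zero)
  obtain ⟨y', hy'⟩ : ∃ y' : EuclideanSpace ℝ H.root, y' = (2 / (d : ℝ)) • ∑ i, (a i : ℝ) • vec (wt B i) := ⟨_, rfl⟩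
  have hyr : ∀ α : H.root, ∃ k : ℤ, (rootSystem H).root α y = (k : K) ∧
      (inner ℝ (vec (PF.CC.rt (rootSystem H) α)) y' : ℝ) = (k : ℝ) := by
    intro α
    obtain ⟨k, hk⟩ := hαy α
    refine ⟨k, hk, ?_⟩
    have h1 := hQ3 α (fun i => wt B i α) (fun i => wt_spec B i α) y
    rw [hk] at h1
    have h2 : (∑ i, a i * wt B i α : ℤ) = (∑ i, wt B i α * wt B i α) * k := by
      have h3 : ((∑ i, a i * wt B i α : ℤ) : K) = (((∑ i, wt B i α * wt B i α) * k : ℤ) : K) := by
        rw [Int.cast_mul, ← h1, Int.cast_sum, Finset.mul_sum]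
        refine Finset.sum_congr rfl fun i _ => ?_
        rw [Int.cast_mul, ← ha i]
        ring
      exact_mod_cast h3
    have h3 : ∀ i, (inner ℝ (vec (PF.CC.rt (rootSystem H) α)) (vec (wt B i)) : ℝ) = (wt B i α : ℝ) *
        ((∑ k, PF.CC.rt (rootSystem H) α k * PF.CC.rt (rootSystem H) α k : ℤ) : ℝ) / 2 := by
      intro i
      have h4 := two_sum (rootSystem H) (wt_wt B i) α
      rw [real_inner_comm, inner_vec]
      have h5 : (2 : ℝ) * ((∑ k, wt B i k * PF.CC.rt (rootSystem H) α k : ℤ) : ℝ) =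
        (wt B i α : ℝ) * ((∑ k, PF.CC.rt (rootSystem H) α k * PF.CC.rt (rootSystem H) α k : ℤ) : ℝ) := by exact_mod_cast h4
      linarith
    rw [hy', inner_smul_right, inner_sum]
    have h4 : ∑ i, (inner ℝ (vec (PF.CC.rt (rootSystem H) α)) ((a i : ℝ) • vec (wt B i)) : ℝ) =
        ((∑ i, a i * wt B i α : ℤ) : ℝ) *
          (((∑ k, PF.CC.rt (rootSystem H) α k * PF.CC.rt (rootSystem H) α k : ℤ) : ℝ) / 2) := by
      rw [Int.cast_sum, Finset.sum_mul]
      refine Finset.sum_congr rfl fun i _ => ?_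
      rw [inner_smul_right, h3, Int.cast_mul]
      ring
    rw [h4, h2]
    have h5 : (((∑ i, wt B i α * wt B i α : ℤ) : ℝ)) *
      ((∑ j, PF.CC.rt (rootSystem H) α j * PF.CC.rt (rootSystem H) α j : ℤ) : ℝ) = (d : ℝ) := by exact_mod_cast hd α
    rw [Int.cast_mul, ← h5]
    have h6 : (0 : ℝ) < ((∑ i, wt B i α * wt B i α : ℤ) : ℝ) := by exact_mod_cast hS α
    have h7 : (0 : ℝ) < ((∑ j, PF.CC.rt (rootSystem H) α j * PF.CC.rt (rootSystem H) α j : ℤ) : ℝ) := by
      exact_mod_cast sum_pos (rootSystem H) α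
    field_simp
  have hw := fun i => lat_w' B hsat hQr hyr i
  have hdy : (d : ℝ) * inner ℝ y' y' = ∑ i, (a i : ℝ) ^ 2 := by
    have h1 : (inner ℝ y' y' : ℝ) = (2 / (d : ℝ)) * ∑ i, (a i : ℝ) * ((a i : ℝ) / 2) := by
      conv_lhs => rw [hy']
      rw [inner_smul_left, sum_inner]
      simp only [conj_trivial]
      congr 1
      refine Finset.sum_congr rfl fun i _ => ?_
      rw [inner_smul_left, ← hy', (hw i).2.1 (a i) (ha i)]
      simp only [conj_trivial]
    rw [h1, Finset.mul_sum, Finset.mul_sum]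
    refine Finset.sum_congr rfl fun i _ => ?_
    field_simp
  have hdom : ∀ j ∈ b.support, 0 ≤ wt B t j := by
    intro j hj
    obtain ⟨k, hk⟩ := htdom j hj
    have h1 : ((wt B t j : ℤ) : K) = ((k : ℤ) : K) := by
      rw [← wt_spec, hk]
      push_cast
      rfl
    have h2 : wt B t j = k := by exact_mod_cast h1
    omega
  have hcardPh : (Ph (rootSystem H)).card = Fintype.card H.root := by
    unfold Ph
    rw [Finset.card_image_of_injective _ fun α β h => rt_inj (rootSystem H) (vec_inj h), Finset.card_univ]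
  -- no weight above t
  have hnoup : ∀ α ∈ pos b, ∀ i, B.w i ≠ B.w t + (rootSystem H).root α := by
    intro α hα i h1
    obtain ⟨κ, hκ⟩ := htb i
    rw [h1] at hκ
    have hα' : b.IsPos α := by simpa [pos] using hα
    have h2 : (rootSystem H).root α = ∑ j ∈ b.support, (-(κ j : ℤ)) • (rootSystem H).root j := by
      have h3 : (rootSystem H).root α = - ∑ j ∈ b.support, (κ j : K) • (rootSystem H).root j := by
        have h4 : B.w t + (rootSystem H).root α - B.w t = B.w t - ∑ j ∈ b.support, (κ j : K) • (rootSystem H).root j - B.w t := by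
          rw [hκ]
        rw [add_sub_cancel_left] at h4
        rw [h4]
        abel
      rw [h3, ← Finset.sum_neg_distrib]
      refine Finset.sum_congr rfl fun j _ => ?_
      rw [neg_smul, natCast_zsmul, Nat.cast_smul_eq_nsmul]
    have h3 := b.height_eq_sum h2
    rw [RootPairing.Base.isPos_iff, h3] at hα'
    have h4 : ∑ j ∈ b.support, -(κ j : ℤ) ≤ 0 := Finset.sum_nonpos fun j _ => by simp
    omega
  have hc := hQ6 t hnoup
  -- the integral form of c
  obtain ⟨m, hm⟩ : ∃ m : ℤ, m = ∑ j, wt B t j * wt B t j + ∑ α ∈ pos b, ∑ j, wt B t j * PF.CC.rt (rootSystem H) α j :=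
    ⟨_, rfl⟩
  have hdc : (d : K) * c = 4 * (m : K) := by
    rw [hc, mul_add, (hw t).1 (B.w t) (wt B t) (fun β => wt_spec B t β), Finset.mul_sum,
      Finset.sum_congr rfl fun α _ => hQr α (B.w t) (wt B t) (fun β => wt_spec B t β), ← Finset.mul_sum, hm]
    push_cast
    ring
  have hfin : 4 * m * (Fintype.card I : ℤ) = d * (finrank K L : ℤ) := by
    have h1 : ((4 * m * (Fintype.card I : ℤ) : ℤ) : K) = ((d * (finrank K L : ℤ) : ℤ) : K) := by
      push_cast
      rw [← hQ5]
      linear_combination -(Fintype.card I : K) * hdc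
    exact_mod_cast h1
  have hdim : Fintype.card H.root + finrank K H = finrank K L := card_root_eq H
  -- the rank
  have hrank : finrank ℝ (Submodule.span ℝ (Ph (rootSystem H) : Set (EuclideanSpace ℝ H.root))) = finrank K H := by
    obtain ⟨U, hU⟩ : ∃ U : Submodule ℝ (EuclideanSpace ℝ H.root),
      U = Submodule.span ℝ (Ph (rootSystem H) : Set (EuclideanSpace ℝ H.root)) := ⟨_, rfl⟩
    rw [← hU]
    have hwU : ∀ i, vec (wt B i) ∈ U := fun i => by rw [hU]; exact (hw i).2.2
    have h1 : ∀ u ∈ U, ∑ i, (inner ℝ (vec (wt B i)) u : ℝ) • vec (wt B i) = ((d : ℝ) / 4) • u := by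
      intro u hu
      rw [hU] at hu
      induction hu using Submodule.span_induction with
      | mem u hu =>
        obtain ⟨α, rfl⟩ := (mem_Ph _).1 (Finset.mem_coe.1 hu)
        ext β
        have h2 := hQ3 α (fun i => wt B i α) (fun i => wt_spec B i α) (coroot β.1)
        rw [rt_spec] at h2
        have h3 : 2 * ∑ i, wt B i β * wt B i α = (∑ i, wt B i α * wt B i α) * PF.CC.rt (rootSystem H) α β := by
          have h4 : ((2 * ∑ i, wt B i β * wt B i α : ℤ) : K) =
              (((∑ i, wt B i α * wt B i α) * PF.CC.rt (rootSystem H) α β : ℤ) : K) := by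
            rw [Int.cast_mul _ (PF.CC.rt (rootSystem H) α β), ← h2]
            push_cast
            congr 1
            refine Finset.sum_congr rfl fun i _ => ?_
            rw [wt_spec]
          exact_mod_cast h4
        have h4 : ∀ i, (inner ℝ (vec (wt B i)) (vec (PF.CC.rt (rootSystem H) α)) : ℝ) = (wt B i α : ℝ) *
            ((∑ k, PF.CC.rt (rootSystem H) α k * PF.CC.rt (rootSystem H) α k : ℤ) : ℝ) / 2 := by
          intro i
          have h4 := two_sum (rootSystem H) (wt_wt B i) α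
          rw [inner_vec]
          have h5 : (2 : ℝ) * ((∑ k, wt B i k * PF.CC.rt (rootSystem H) α k : ℤ) : ℝ) =
            (wt B i α : ℝ) * ((∑ k, PF.CC.rt (rootSystem H) α k * PF.CC.rt (rootSystem H) α k : ℤ) : ℝ) := by
            exact_mod_cast h4
          linarith
        simp only [WithLp.ofLp_sum, WithLp.ofLp_smul, Finset.sum_apply, Pi.smul_apply, smul_eq_mul, vec_apply]
        rw [Finset.sum_congr rfl fun i _ => by rw [h4 i]]
        have h5 : (((∑ i, wt B i α * wt B i α : ℤ) : ℝ)) *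
          ((∑ j, PF.CC.rt (rootSystem H) α j * PF.CC.rt (rootSystem H) α j : ℤ) : ℝ) = (d : ℝ) := by exact_mod_cast hd α
        have h6 : (2 : ℝ) * ((∑ i, wt B i β * wt B i α : ℤ) : ℝ) =
            ((∑ i, wt B i α * wt B i α : ℤ) : ℝ) * (PF.CC.rt (rootSystem H) α β : ℝ) := by exact_mod_cast h3
        have h7 : ∑ i, (wt B i α : ℝ) * ((∑ k, PF.CC.rt (rootSystem H) α k * PF.CC.rt (rootSystem H) α k : ℤ) : ℝ) / 2 *
            (wt B i β : ℝ) = ((∑ i, wt B i β * wt B i α : ℤ) : ℝ) *
            (((∑ k, PF.CC.rt (rootSystem H) α k * PF.CC.rt (rootSystem H) α k : ℤ) : ℝ) / 2) := by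
          have h8 : ((∑ i, wt B i β * wt B i α : ℤ) : ℝ) = ∑ i, (wt B i β : ℝ) * (wt B i α : ℝ) := by
            push_cast
            rfl
          rw [h8, Finset.sum_mul]
          refine Finset.sum_congr rfl fun i _ => ?_
          ring
        rw [h7, ← h5]
        linear_combination (((∑ k, PF.CC.rt (rootSystem H) α k * PF.CC.rt (rootSystem H) α k : ℤ) : ℝ) / 4) * h6
      | zero => simp
      | add u v _ _ hu hv =>
        simp only [inner_add_right, add_smul, Finset.sum_add_distrib, smul_add]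
        rw [hu, hv]
      | smul k u _ hu =>
        simp only [inner_smul_right, mul_smul]
        rw [← Finset.smul_sum, hu, smul_comm]
    have h2 : (∑ i, (((innerSL ℝ (vec (wt B i))).toLinearMap.comp U.subtype).smulRight (⟨vec (wt B i), hwU i⟩ : U)) :
        U →ₗ[ℝ] U) = ((d : ℝ) / 4) • LinearMap.id := by
      refine LinearMap.ext fun u => ?_
      apply Subtype.ext
      rw [LinearMap.sum_apply, LinearMap.smul_apply, LinearMap.id_apply, Submodule.coe_sum, Submodule.coe_smul, ← h1 u u.2]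
      rfl
    have h3 := congrArg (LinearMap.trace ℝ U) h2
    rw [map_sum, map_smul, LinearMap.trace_id, smul_eq_mul] at h3
    have h4 : ∑ i, LinearMap.trace ℝ U (((innerSL ℝ (vec (wt B i))).toLinearMap.comp U.subtype).smulRight
        (⟨vec (wt B i), hwU i⟩ : U)) = ((∑ i, ∑ j, wt B i j * wt B i j : ℤ) : ℝ) := by
      rw [Int.cast_sum]
      refine Finset.sum_congr rfl fun i _ => ?_
      rw [LinearMap.trace_smulRight, ← inner_vec]
      rfl
    rw [h4] at h3
    have h5 : 4 * ∑ i, ∑ j, wt B i j * wt B i j = d * (finrank K H : ℤ) := by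
      have h6 : ((4 * ∑ i, ∑ j, wt B i j * wt B i j : ℤ) : K) = ((d * (finrank K H : ℤ) : ℤ) : K) := by
        have h7 : (d : K) * ∑ i, Q (B.w i) (B.w i) = ∑ i, 4 * ((∑ j, wt B i j * wt B i j : ℤ) : K) := by
          rw [Finset.mul_sum]
          exact Finset.sum_congr rfl fun i _ => (hw i).1 (B.w i) (wt B i) (fun β => wt_spec B i β)
        rw [Int.cast_mul d, Int.cast_natCast, ← hQ4, h7, ← Finset.mul_sum]
        push_cast
        rfl
      exact_mod_cast h6
    have h6 : (4 : ℝ) * ((∑ i, ∑ j, wt B i j * wt B i j : ℤ) : ℝ) = (d : ℝ) * (finrank K H : ℝ) := by exact_mod_cast h5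
    have h7 : (d : ℝ) * (finrank ℝ U : ℝ) = (d : ℝ) * (finrank K H : ℝ) := by rw [← h6, h3]; ring
    exact_mod_cast mul_left_cancel₀ hdR.ne' h7
  refine ⟨t, y', htb, fun i => (hw i).2.1 (a i) (ha i), hyr, ?_, ?_⟩
  · rw [hy']
    exact Submodule.smul_mem _ _ (Submodule.sum_mem _ fun i _ => Submodule.smul_mem _ _ (hw i).2.2)
  · rw [cas_eq b B hdom, ← hm, hrank, hcardPh]
    have h1 : (4 : ℝ) * (m : ℝ) * (Fintype.card I : ℝ) = (d : ℝ) * (finrank K L : ℝ) := by exact_mod_cast hfin
    have h2 : ((Fintype.card H.root + finrank K H : ℕ) : ℝ) = (finrank K L : ℝ) := by rw [hdim]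
    push_cast at h2
    rw [add_comm, h2, ← hdy]
    linear_combination (inner ℝ y' y' : ℝ) * h1



/-- `AT.exists_wd'` for a given base -/
theorem exists_wd3_b (b : (rootSystem H).Base) (B : WB (V := V) H I) [Nonempty I] [Nonempty H.root]
    [(rootSystem H).IsIrreducible]
    (hirr : ∀ W : Submodule K V, (∀ x : L, ∀ u ∈ W, ⁅x, u⁆ ∈ W) → W = ⊥ ∨ W = ⊤)
    (hfaith : ∀ x : L, (∀ u : V, ⁅x, u⁆ = 0) → x = 0) :
    ∃ (t : I) (v : EuclideanSpace ℝ H.root), (∀ i, Below b (B.w t) (B.w i)) ∧
      Ps (PF.CC.Ph (rootSystem H)) v = (pos b).image (fun α => PF.CC.vec (PF.CC.rt (rootSystem H) α)) ∧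
      Wd' (PF.CC.Ph (rootSystem H)) (PF.CC.Xw B) (Fintype.card I) (PF.CC.vec (PF.CC.wt B t)) v := by
  classical
  obtain ⟨t, htb, htdom, hdim⟩ := dimension B hirr hfaith b
  have hsat := sat' B hirr
  have hdom : ∀ j ∈ b.support, 0 ≤ wt B t j := by
    intro j hj
    obtain ⟨k, hk⟩ := htdom j hj
    have h1 : ((wt B t j : ℤ) : K) = ((k : ℤ) : K) := by
      rw [← wt_spec, hk]
      push_cast
      rfl
    have h2 : wt B t j = k := by exact_mod_cast h1
    omega
  -- expansions of the positive coroots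
  have hc : ∀ α ∈ pos b, ∃ f : H.root → ℕ, coroot α.1 = ∑ j ∈ b.support, (f j : K) • coroot j.1 ∧
      0 < ∑ j ∈ b.support, f j := by
    intro α hα
    have : b.IsPos α := by simpa [pos] using hα
    obtain ⟨f, hf, hf'⟩ := coroot_eq_sum b this
    exact ⟨f, hf, hf'⟩
  choose! f hf hf' using hc
  have e1 : ∀ α ∈ pos b, rho b (coroot α.1) = ((∑ j ∈ b.support, f α j : ℕ) : K) := by
    intro α hα
    rw [hf α hα, map_sum, Nat.cast_sum]
    refine Finset.sum_congr rfl fun j hj => ?_
    have : rho b (coroot j.1) = 1 := rho_coroot b hj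
    rw [map_smul, this, smul_eq_mul, mul_one]
  obtain ⟨R, hR⟩ : ∃ R : H.root → ℤ, R = fun α => ∑ β ∈ pos b, PF.CC.rt (rootSystem H) β α := ⟨_, rfl⟩
  have hRW : Wt (rootSystem H) R := by
    have h1 : ∀ α : H.root, ((2 : K) • rho b : Dual K H) (coroot α.1) = (R α : K) := by
      intro α
      rw [LinearMap.smul_apply, smul_eq_mul, two_rho, hR]
    exact wt_dual h1
  have hR1 : ∀ α ∈ pos b, R α = 2 * ((∑ j ∈ b.support, f α j : ℕ) : ℤ) := by
    intro α hα
    have h1 : ((R α : ℤ) : K) = ((2 * ((∑ j ∈ b.support, f α j : ℕ) : ℤ) : ℤ) : K) := by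
      have h2 := two_rho b α
      rw [e1 α hα] at h2
      rw [hR, ← h2]
      push_cast
      rfl
    exact_mod_cast h1
  have hRpos : ∀ α ∈ pos b, 0 < R α := by
    intro α hα
    rw [hR1 α hα]
    have := hf' α hα
    omega
  have hneg : ∀ α : H.root, R ((rootSystem H).reflectionPerm α α) = - R α := by
    intro α
    rw [hRW α α, rt_self]
    ring
  have hRneg : ∀ α, α ∉ pos b → R α < 0 := by
    intro α hα
    have h1 : b.IsPos ((rootSystem H).reflectionPerm α α) := by
      have h2 := RootPairing.Base.IsPos.neg_iff_not b α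
      refine h2.2 ?_
      intro h3
      apply hα
      simpa [pos] using h3
    have h2 := hRpos ((rootSystem H).reflectionPerm α α) (by simpa [pos] using h1)
    rw [hneg] at h2
    omega
  obtain ⟨v, hv⟩ : ∃ v : EuclideanSpace ℝ H.root, v = vec R := ⟨_, rfl⟩
  have hin : ∀ (g : H.root → ℤ), Wt (rootSystem H) g → ∀ j : H.root,
      (inner ℝ (vec g) (vec (PF.CC.rt (rootSystem H) j)) : ℝ) =
      (g j : ℝ) * (((∑ k, PF.CC.rt (rootSystem H) j k * PF.CC.rt (rootSystem H) j k : ℤ) : ℝ) / 2) := by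
    intro g hg j
    have h1 := two_sum (rootSystem H) hg j
    rw [inner_vec]
    have h2 : (2 : ℝ) * ((∑ k, g k * PF.CC.rt (rootSystem H) j k : ℤ) : ℝ) =
      (g j : ℝ) * ((∑ k, PF.CC.rt (rootSystem H) j k * PF.CC.rt (rootSystem H) j k : ℤ) : ℝ) := by exact_mod_cast h1
    linarith
  have hN : ∀ j : H.root, (0 : ℝ) < ((∑ k, PF.CC.rt (rootSystem H) j k * PF.CC.rt (rootSystem H) j k : ℤ) : ℝ) / 2 :=
    fun j => by
      have : (0 : ℝ) < ((∑ k, PF.CC.rt (rootSystem H) j k * PF.CC.rt (rootSystem H) j k : ℤ) : ℝ) := by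
        exact_mod_cast sum_pos (rootSystem H) j
      linarith
  have hPs : Ps (Ph (rootSystem H)) v = (pos b).image fun α => vec (PF.CC.rt (rootSystem H) α) := by
    ext a
    unfold Ps
    rw [Finset.mem_filter, mem_Ph, Finset.mem_image]
    constructor
    · rintro ⟨⟨α, rfl⟩, h2⟩
      refine ⟨α, ?_, rfl⟩
      by_contra h3
      have h4 := hRneg α h3
      rw [hv, hin R hRW] at h2
      have h5 : (R α : ℝ) < 0 := by exact_mod_cast h4
      nlinarith [hN α]
    · rintro ⟨α, hα, rfl⟩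
      refine ⟨⟨α, rfl⟩, ?_⟩
      rw [hv, hin R hRW]
      have h5 : (0 : ℝ) < (R α : ℝ) := by exact_mod_cast hRpos α hα
      exact mul_pos h5 (hN α)
  have hinj : Set.InjOn (fun α : H.root => vec (PF.CC.rt (rootSystem H) α)) (pos b : Set H.root) :=
    fun α _ β _ h => rt_inj (rootSystem H) (vec_inj h)
  refine ⟨t, v, htb, hPs, ⟨rs (rootSystem H), hsat, card_Xw B, (mem_Xw B).2 ⟨t, rfl⟩, ?_,
    fun x hx => norm_le' B hsat b htb hdom hx, ?_, ?_, ?_, ?_, ?_, ?_⟩⟩
  · intro h0
    obtain ⟨α⟩ := ‹Nonempty H.root›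
    obtain ⟨x, hx, hx0⟩ := exists_ne_zero' B hfaith α
    have h1 := norm_le' B hsat b htb hdom hx
    rw [h0, inner_zero_left] at h1
    exact hx0 (inner_self_eq_zero.1 (le_antisymm h1 real_inner_self_nonneg))
  · intro a ha
    obtain ⟨α, rfl⟩ := (mem_Ph _).1 ha
    rw [hv, hin R hRW]
    refine mul_ne_zero ?_ (hN α).ne'
    by_cases hα : α ∈ pos b
    · exact_mod_cast (hRpos α hα).ne'
    · exact_mod_cast (hRneg α hα).ne
  · rw [hPs, Finset.sum_image hinj, hv, hR]
    ext α
    simp only [vec_apply, WithLp.ofLp_sum, Finset.sum_apply]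
    push_cast
    rfl
  · intro a ha
    rw [hPs, Finset.mem_image] at ha
    obtain ⟨α, hα, rfl⟩ := ha
    rw [hin _ (wt_wt B t)]
    have h1 := dom_pos b (fun β => wt_spec B t β) hdom hα
    have h2 : (0 : ℝ) ≤ (wt B t α : ℝ) := by exact_mod_cast h1
    exact mul_nonneg h2 (hN α).le
  · rw [hPs, Finset.prod_image hinj, Finset.prod_image hinj]
    have h1 : ∀ α ∈ pos b, (inner ℝ ((2 : ℝ) • vec (wt B t) + v) (vec (PF.CC.rt (rootSystem H) α)) : ℝ) =
        ((2 * wt B t α + R α : ℤ) : ℝ) * (((∑ k, PF.CC.rt (rootSystem H) α k * PF.CC.rt (rootSystem H) α k : ℤ) : ℝ) / 2) := by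
      intro α _
      rw [inner_add_left, inner_smul_left, hv, hin R hRW, hin _ (wt_wt B t)]
      simp only [conj_trivial]
      push_cast
      ring
    have h2 : ∀ α ∈ pos b, (inner ℝ v (vec (PF.CC.rt (rootSystem H) α)) : ℝ) =
        ((R α : ℤ) : ℝ) * (((∑ k, PF.CC.rt (rootSystem H) α k * PF.CC.rt (rootSystem H) α k : ℤ) : ℝ) / 2) := by
      intro α _
      rw [hv, hin R hRW]
    rw [Finset.prod_congr rfl h1, Finset.prod_congr rfl h2, Finset.prod_mul_distrib, Finset.prod_mul_distrib, ← mul_assoc]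
    congr 1
    have h3 : (Fintype.card I : ℤ) * ∏ α ∈ pos b, R α = ∏ α ∈ pos b, (2 * wt B t α + R α) := by
      have h4 : (((Fintype.card I : ℤ) * ∏ α ∈ pos b, R α : ℤ) : K) =
          ((∏ α ∈ pos b, (2 * wt B t α + R α) : ℤ) : K) := by
        have h5 : ∀ α ∈ pos b, ((R α : ℤ) : K) = 2 * rho b (coroot α.1) := by
          intro α _
          rw [two_rho, hR]
        have h6 : ∀ α ∈ pos b, ((2 * wt B t α + R α : ℤ) : K) = 2 * (B.w t + rho b) (coroot α.1) := by
          intro α hα
          rw [Int.cast_add, h5 α hα, LinearMap.add_apply, wt_spec]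
          push_cast
          ring
        rw [Int.cast_mul, Int.cast_prod, Int.cast_prod, Finset.prod_congr rfl h5, Finset.prod_congr rfl h6,
          Finset.prod_mul_distrib, Finset.prod_mul_distrib, ← hdim]
        push_cast
        ring
      exact_mod_cast h4
    exact_mod_cast h3
  · intro p hp hd
    obtain ⟨α, i, k, hk, hle⟩ := PF.L.exists_large B hirr hfaith hp hd ‹Nonempty I›
    refine ⟨vec (PF.CC.rt (rootSystem H) α), (mem_Ph _).2 ⟨α, rfl⟩, vec (wt B i), (mem_Xw B).2 ⟨i, rfl⟩, ?_⟩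
    have h1 : wt B i α = k := by
      have h2 : ((wt B i α : ℤ) : K) = k := by rw [← wt_spec, hk]
      exact_mod_cast h2
    rw [co_vec _ (wt_wt B i) α, qs_eq, h1]
    have h2 : ((p : ℚ) : ℝ) ≤ ((k + (1 / 4) * ∑ g : H.root, |((rootSystem H).pairingIn ℤ g α : ℚ)| : ℚ) : ℝ) := by
      exact_mod_cast hle
    push_cast at h2
    exact h2
  · intro hA
    have h2 := two_le_card b hA
    have hcardPh : (Ph (rootSystem H)).card = Fintype.card H.root := by
      unfold Ph
      rw [Finset.card_image_of_injective _ fun α β h => rt_inj (rootSystem H) (vec_inj h), Finset.card_univ]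
    choose! k hk using htdom
    obtain ⟨er⟩ : Nonempty (Fin b.support.card ≃ b.support) := ⟨b.support.equivFin.symm⟩
    obtain ⟨eN⟩ : Nonempty (Fin (pos b).card ≃ pos b) := ⟨(pos b).equivFin.symm⟩
    have hsup : ∀ j ∈ b.support, j ∈ pos b := by
      intro j hj
      have := RootPairing.Base.isPos_of_mem_support hj
      simpa [pos] using this
    have hsum : ∀ g : H.root → ℕ, ∑ j, g (er j) = ∑ j ∈ b.support, g j := by
      intro g
      rw [Equiv.sum_comp er (fun j : b.support => g j), Finset.sum_coe_sort b.support g]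
    have hprod : ∀ g : H.root → ℕ, ∏ a, g (eN a) = ∏ a ∈ pos b, g a := by
      intro g
      rw [Equiv.prod_comp eN (fun j : pos b => g j), Finset.prod_coe_sort (pos b) g]
    have hposle : (pos b).card ≤ Fintype.card H.root := Finset.card_le_univ _
    have hsuple : b.support.card ≤ Fintype.card H.root := Finset.card_le_univ _
    have hpos : ∀ (s : H.root) (g : H.root → ℕ), Cf (P := (rootSystem H).flip) b.flip g s → 1 ≤ ∑ l ∈ b.support, g l →
        s ∈ pos b ∧ ∀ l ∈ b.support, f s l = g l := by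
      intro s g hg hg2
      have h3 : b.IsPos s := by
        rw [← isPos_flip b, RootPairing.Base.isPos_iff]
        have h4 := b.flip.height_eq_sum (i := s) (f := fun l => (g l : ℤ)) (by
          rw [hg]
          refine Finset.sum_congr rfl fun l _ => ?_
          rw [natCast_zsmul, Nat.cast_smul_eq_nsmul])
        rw [h4]
        have h5 : (1 : ℤ) ≤ ((∑ l ∈ b.support, g l : ℕ) : ℤ) := by exact_mod_cast hg2
        push_cast at h5
        have h6 : b.flip.support = b.support := rfl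
        rw [h6]
        omega
      have h4 : s ∈ pos b := by simpa [pos] using h3
      exact ⟨h4, fun l hl => coef_unique b ((hf s h4).symm.trans hg) hl⟩
    refine ⟨b.support.card, (pos b).card, fun a j => f (eN a) (er j), fun j => k (er j) + 1,
      h2, ?_, ?_, ?_, ?_, ?_, ?_, ?_⟩
    · rw [hcardPh]
      exact hsuple
    · rw [hcardPh]
      exact hposle
    · intro a j
      rw [hcardPh]
      have h3 : f (eN a) (er j) ≤ ∑ j ∈ b.support, f (eN a) j :=
        Finset.single_le_sum (f := fun j => f (eN a) j) (fun _ _ => Nat.zero_le _) (er j).2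
      have h4 := hR1 (eN a) (eN a).2
      have h5 : R (eN a) ≤ 4 * (Fintype.card H.root : ℤ) := by
        rw [hR]
        have h6 : ∀ β ∈ pos b, PF.CC.rt (rootSystem H) β (eN a) ≤ 4 := by
          intro β _
          have h1 := (rootSystem H).pairingIn_pairingIn_mem_set_of_isCrystal_of_isRed β (eN a)
          have h2 : PF.CC.rt (rootSystem H) β (eN a) = (rootSystem H).pairingIn ℤ β (eN a) := rfl
          rw [h2]
          simp only [Set.mem_insert_iff, Set.mem_singleton_iff, Prod.mk.injEq] at h1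
          rcases h1 with h | h | h | h | h | h | h | h | h | h | h | h | h <;> rw [h.1] <;> norm_num
        refine (Finset.sum_le_sum h6).trans ?_
        rw [Finset.sum_const, nsmul_eq_mul]
        have : ((pos b).card : ℤ) ≤ (Fintype.card H.root : ℤ) := by exact_mod_cast hposle
        linarith
      have h6 : ((∑ j ∈ b.support, f (eN a) j : ℕ) : ℤ) ≤ 4 * (Fintype.card H.root : ℤ) := by
        have : (0 : ℤ) ≤ ((∑ j ∈ b.support, f (eN a) j : ℕ) : ℤ) := Int.natCast_nonneg _
        linarith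
      have h7 : ∑ j ∈ b.support, f (eN a) j ≤ 4 * Fintype.card H.root := by exact_mod_cast h6
      exact h3.trans h7
    · intro a
      rw [hsum (fun j => f (eN a) j)]
      exact hf' _ (eN a).2
    · intro j
      exact Nat.succ_pos _
    · intro j m hm1 hm2
      obtain ⟨J, hJ, hJc, hjJ, γ, g, hg, hg1, hg0⟩ := exists_conn (P := (rootSystem H).flip) b.flip (v := (er j : H.root))
        (er j).2 m hm1 hm2
      have hJ' : J ⊆ b.support := hJ
      have hs : ∑ l ∈ b.support, g l = m := by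
        rw [← Finset.sum_subset hJ' (fun l _ hl => hg0 l hl), Finset.sum_congr rfl hg1, Finset.sum_const, hJc, smul_eq_mul,
          mul_one]
      obtain ⟨h3, h4⟩ := hpos γ g hg (by omega)
      refine ⟨eN.symm ⟨γ, h3⟩, ?_, ?_, ?_⟩
      · simp only [Equiv.apply_symm_apply]
        rw [h4 _ (er j).2, hg1 _ hjJ]
      · intro i
        simp only [Equiv.apply_symm_apply]
        rw [h4 _ (er i).2]
        by_cases hi : (er i : H.root) ∈ J
        · rw [hg1 _ hi]
        · rw [hg0 _ hi]; omega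
      · simp only [Equiv.apply_symm_apply]
        rw [hsum (fun l => f γ l), Finset.sum_congr rfl h4, hs]
    · have e2 : ∀ α ∈ pos b, (B.w t + rho b) (coroot α.1) = ((∑ j ∈ b.support, f α j * (k j + 1) : ℕ) : K) := by
        intro α hα
        rw [hf α hα, map_sum, Nat.cast_sum]
        refine Finset.sum_congr rfl fun j hj => ?_
        have h3 : rho b (coroot j.1) = 1 := rho_coroot b hj
        rw [map_smul, LinearMap.add_apply, h3, hk j hj, smul_eq_mul, Nat.cast_mul, Nat.cast_add, Nat.cast_one]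
      have h3 : Fintype.card I * ∏ α ∈ pos b, (∑ j ∈ b.support, f α j) = ∏ α ∈ pos b, (∑ j ∈ b.support, f α j * (k j + 1)) := by
        have h4 : ((Fintype.card I * ∏ α ∈ pos b, (∑ j ∈ b.support, f α j) : ℕ) : K) =
            ((∏ α ∈ pos b, (∑ j ∈ b.support, f α j * (k j + 1)) : ℕ) : K) := by
          rw [Nat.cast_mul, Nat.cast_prod, Nat.cast_prod, ← Finset.prod_congr rfl e1, ← Finset.prod_congr rfl e2]
          exact hdim
        exact_mod_cast h4
      have h5 : ∏ a, ∑ j, f (eN a) (er j) = ∏ α ∈ pos b, (∑ j ∈ b.support, f α j) := by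
        rw [← hprod (fun α => ∑ j ∈ b.support, f α j)]
        exact Finset.prod_congr rfl fun a _ => hsum (fun j => f (eN a) j)
      have h6 : ∏ a, ∑ j, f (eN a) (er j) * (k (er j) + 1) = ∏ α ∈ pos b, (∑ j ∈ b.support, f α j * (k j + 1)) := by
        rw [← hprod (fun α => ∑ j ∈ b.support, f α j * (k j + 1))]
        exact Finset.prod_congr rfl fun a _ => hsum (fun j => f (eN a) j * (k j + 1))
      rw [h5, h6]
      exact h3


end L2
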