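import Pool.Agent.Helper55.L2.Defs
import Pool.Agent.Helper98.LT.Frame

/-!
Project L2 (MP_b8862a_ag), block W0: the lowest weight.
-/

set_option linter.unusedSectionVars false
set_option linter.unusedVariables false

open Module PF TF PW AT

namespace L2

variable {E : Type*} [NormedAddCommGroup E] [InnerProductSpace ℝ E] {Φ X : Finset E} {a b c n m : ℕ} {l y v : E} {k : ℝ}

/-- the set of weights is stable under the reflections -/
theorem sat_refl (h : RS Φ) (hX : Sat' Φ X) {r x : E} (hr : r ∈ Φ) (hx : x ∈ X) : x - co r x • r ∈ X := by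
  obtain ⟨j, hj⟩ := hX.int r hr x hx
  rcases le_total 0 j with h0 | h0
  · obtain ⟨i, rfl⟩ := Int.eq_ofNat_of_zero_le h0
    have h1 := hX.str r hr x hx i (by rw [hj]; simp)
    rw [hj]
    simpa using h1
  · obtain ⟨i, hi⟩ := Int.eq_ofNat_of_zero_le (Int.neg_nonneg_of_nonpos h0)
    have h1 : co (-r) x = (i : ℝ) := by
      have h2 : co (-r) x = -co r x := by
        unfold co
        rw [inner_neg_right, inner_neg_neg]
        ring
      rw [h2, hj]
      exact_mod_cast hi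
    have h2 := hX.str (-r) (h.neg_mem hr) x hx i (by rw [h1])
    have h3 : co r x = -(i : ℝ) := by
      rw [hj]
      have : j = -(i : ℤ) := by omega
      rw [this]
      simp
    rw [h3]
    rw [show x - -(i : ℝ) • r = x - (i : ℝ) • -r by module]
    exact h2

/-- products of reflections -/
structure WG (Φ X : Finset E) (f : E →ₗ[ℝ] E) : Prop where
  inn : ∀ x y, (inner ℝ (f x) (f y) : ℝ) = inner ℝ x y
  mem : ∀ r ∈ Φ, f r ∈ Φ
  sat : ∀ x ∈ X, f x ∈ X

theorem WG.one : WG Φ X (LinearMap.id : E →ₗ[ℝ] E) := ⟨fun _ _ => rfl, fun _ h => h, fun _ h => h⟩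

theorem WG.rf_comp (h : RS Φ) (hX : Sat' Φ X) {f : E →ₗ[ℝ] E} (hf : WG Φ X f) {r : E} (hr : r ∈ Φ) :
    WG Φ X ((LT.rf r).comp f) where
  inn x y := by rw [LinearMap.comp_apply, LinearMap.comp_apply, LT.inner_rf h hr, hf.inn]
  mem s hs := by rw [LinearMap.comp_apply, LT.rf_mem h hr]; exact hf.mem s hs
  sat x hx := by
    rw [LinearMap.comp_apply, LT.rf_apply]
    exact sat_refl h hX hr (hf.sat x hx)

theorem WG.inj {f : E →ₗ[ℝ] E} (hf : WG Φ X f) : Function.Injective f := by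
  intro x y hxy
  have h1 : f (x - y) = 0 := by rw [map_sub, hxy, sub_self]
  have h2 := hf.inn (x - y) (x - y)
  rw [h1, inner_zero_left] at h2
  exact sub_eq_zero.1 (inner_self_eq_zero.1 h2.symm)

theorem surj_fin {S : Finset E} {f : E →ₗ[ℝ] E} (hi : Function.Injective f) (hm : ∀ r ∈ S, f r ∈ S) {r : E} (hr : r ∈ S) :
    ∃ s ∈ S, f s = r := by
  classical
  have h1 : S.image f = S := by
    apply Finset.eq_of_subset_of_card_le
    · intro x hx
      obtain ⟨s, hs, rfl⟩ := Finset.mem_image.1 hx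
      exact hm s hs
    · rw [Finset.card_image_of_injective _ hi]
  rw [← h1] at hr
  obtain ⟨s, hs, h2⟩ := Finset.mem_image.1 hr
  exact ⟨s, hs, h2⟩

/-- an element of the Weyl group which makes the positive roots negative -/
theorem exists_w0 (h : RS Φ) (hX : Sat' Φ X) (hreg : ∀ r ∈ Φ, (inner ℝ v r : ℝ) ≠ 0) (hv : v = ∑ r ∈ Ps Φ v, r) :
    ∃ f : E →ₗ[ℝ] E, WG Φ X f ∧ ∀ r ∈ Ps Φ v, -f r ∈ Ps Φ v := by
  classical
  obtain ⟨T, hT⟩ : ∃ T : Set ℝ, T = {t | ∃ f : E →ₗ[ℝ] E, WG Φ X f ∧ t = inner ℝ v (f v)} := ⟨_, rfl⟩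
  have hfin : T.Finite := by
    refine Set.Finite.subset (Finset.finite_toSet (Φ.powerset.image fun S => ∑ r ∈ S, (inner ℝ v r : ℝ))) ?_
    intro t ht
    rw [hT] at ht
    obtain ⟨f, hf, rfl⟩ := ht
    rw [Finset.mem_coe, Finset.mem_image]
    refine ⟨(Ps Φ v).image f, ?_, ?_⟩
    · rw [Finset.mem_powerset]
      intro x hx
      obtain ⟨r, hr, rfl⟩ := Finset.mem_image.1 hx
      exact hf.mem r (Finset.mem_filter.1 hr).1
    · rw [Finset.sum_image fun x _ y _ hxy => hf.inj hxy, ← inner_sum, ← map_sum, ← hv]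
  obtain ⟨t, ht, hmin⟩ := Set.exists_min_image T id hfin ⟨_, by rw [hT]; exact ⟨_, WG.one, rfl⟩⟩
  rw [hT] at ht
  obtain ⟨f, hf, rfl⟩ := ht
  have hle : ∀ r ∈ Ps Φ v, (inner ℝ (f v) r : ℝ) ≤ 0 := by
    intro r hr
    obtain ⟨hr1, hr2⟩ := Finset.mem_filter.1 hr
    by_contra hcon
    push Not at hcon
    have h1 := hmin _ (by rw [hT]; exact ⟨_, hf.rf_comp h hX hr1, rfl⟩)
    simp only [id] at h1
    rw [LinearMap.comp_apply, LT.rf_apply, inner_sub_right, inner_smul_right] at h1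
    have h2 : 0 < co r (f v) := by
      unfold co
      exact div_pos (by linarith) (real_inner_self_pos.2 (h.ne_zero r hr1))
    have h3 := mul_pos h2 hr2
    linarith
  refine ⟨f, hf, fun r hr => ?_⟩
  obtain ⟨hr1, hr2⟩ := Finset.mem_filter.1 hr
  have h1 := hf.mem r hr1
  refine Finset.mem_filter.2 ⟨h.neg_mem h1, ?_⟩
  rw [inner_neg_right]
  have h2 := hreg _ h1
  by_contra hcon
  have h3 : 0 < (inner ℝ v (f r) : ℝ) := lt_of_le_of_ne (by linarith) (Ne.symm h2)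
  have h4 := hle _ (Finset.mem_filter.2 ⟨h1, h3⟩)
  rw [hf.inn] at h4
  linarith

/-- BLOCK W0: the lowest weight -/
theorem exists_lo' (h : RS Φ) (hX : Sat' Φ X) (hreg : ∀ r ∈ Φ, (inner ℝ v r : ℝ) ≠ 0) (hv : v = ∑ r ∈ Ps Φ v, r)
    (hl : l ∈ X) (ht : LT.Top Φ X l v) : ∃ o ∈ X, (inner ℝ o o : ℝ) = inner ℝ l l ∧
    (∀ z : E, (∀ r ∈ Ps Φ v, 0 ≤ (inner ℝ z r : ℝ)) → ∀ x ∈ X, (inner ℝ o z : ℝ) ≤ inner ℝ x z) := by
  classical
  obtain ⟨f, hf, hneg⟩ := exists_w0 h hX hreg hv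
  obtain ⟨o, ho, hfo⟩ := surj_fin hf.inj hf.sat hl
  refine ⟨o, ho, ?_, ?_⟩
  · rw [← hfo, hf.inn]
  · intro z hz x hx
    have hdom : ∀ r ∈ Ps Φ v, 0 ≤ (inner ℝ (-f z) r : ℝ) := by
      intro r hr
      obtain ⟨hr1, hr2⟩ := Finset.mem_filter.1 hr
      obtain ⟨s, hs, hfs⟩ := surj_fin hf.inj hf.mem hr1
      rw [inner_neg_left, ← hfs, hf.inn, ← inner_neg_right]
      apply hz
      refine Finset.mem_filter.2 ⟨h.neg_mem hs, ?_⟩
      rw [inner_neg_right]
      have h2 := hreg _ hs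
      by_contra hcon
      have h3 : 0 < (inner ℝ v s : ℝ) := lt_of_le_of_ne (by linarith) (Ne.symm h2)
      have h4 := hneg _ (Finset.mem_filter.2 ⟨hs, h3⟩)
      rw [hfs] at h4
      have h5 := (Finset.mem_filter.1 h4).2
      rw [inner_neg_right] at h5
      linarith
    have h1 := ht _ hdom _ (hf.sat x hx)
    rw [← hfo, inner_neg_right, inner_neg_right, hf.inn, hf.inn] at h1
    linarith

theorem exists_lo (h : Wd' Φ X n l v) (ht : LT.Top Φ X l v) : ∃ o ∈ X, (inner ℝ o o : ℝ) = inner ℝ l l ∧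
    ∀ z : E, (∀ r ∈ Ps Φ v, 0 ≤ (inner ℝ z r : ℝ)) → ∀ x ∈ X, (inner ℝ o z : ℝ) ≤ inner ℝ x z :=
  exists_lo' h.rs h.sat h.reg h.v_eq h.l_mem ht

/-- if the opposite of the highest weight is a weight then it is the lowest weight -/
theorem lo_eq_neg (hdom : ∀ r ∈ Ps Φ v, 0 ≤ (inner ℝ l r : ℝ)) {o : E} (hoo : (inner ℝ o o : ℝ) = inner ℝ l l)
    (ho : ∀ z : E, (∀ r ∈ Ps Φ v, 0 ≤ (inner ℝ z r : ℝ)) → ∀ x ∈ X, (inner ℝ o z : ℝ) ≤ inner ℝ x z) (hn : -l ∈ X) :
    o = -l := by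
  have h1 := ho l hdom _ hn
  rw [inner_neg_left] at h1
  have h2 : (inner ℝ (o + l) (o + l) : ℝ) = 0 := by
    refine le_antisymm ?_ real_inner_self_nonneg
    rw [inner_add_left, inner_add_right, inner_add_right, real_inner_comm o l, hoo]
    linarith
  exact eq_neg_of_add_eq_zero_left (inner_self_eq_zero.1 h2)

end L2
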