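import Pool.Agent.Helper55.L2.Core
import Pool.Agent.Helper43.BL.CoreLT
import Pool.Agent.Helper43.L2.Fam3
import Pool.Agent.Helper43.L2.TopO
import Pool.Agent.Helper81.L2.ListS
import Pool.Agent.Helper14.L2.ListU

/-!
Project L2 (MP_b8862a_ag): three numbers outside the list `L2.ExcU`.
-/

set_option linter.unusedSectionVars false
set_option linter.unusedVariables false

open Module PF TF PW AT

attribute [local instance 100] LieRing.ofAssociativeRing

namespace L2

/-- A simple irreducible Lie algebra with an invariant symmetric or alternating form and an element with the eigenvalues `1`,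
`0`, `-1` of multiplicities `s`, `n - 2 s`, `s` outside the lists consists of all skew endomorphisms (as helper81's `L2.self3`,
with other imports). -/
theorem self3_55 {V : Type} [AddCommGroup V] [Module ℂ V] [FiniteDimensional ℂ V] {ω : LinearMap.BilinForm ℂ V}
    (hω : ω.IsSymm ∨ ω.IsAlt) (hnd : ω.Nondegenerate) {L : LieSubalgebra ℂ (Module.End ℂ V)}
    (hsimp : LieAlgebra.IsSimple ℂ L)
    (hirr : ∀ W : Submodule ℂ V, (∀ x ∈ L, ∀ u ∈ W, x u ∈ W) → W = ⊥ ∨ W = ⊤)
    (hsk : ∀ x ∈ L, ∀ u v, ω (x u) v = -ω u (x v))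
    (h : Module.End ℂ V) (hh : h ∈ L) {s : ℕ} (hs : 0 < s) (h2s : 2 * s < finrank ℂ V) (h5 : 5 ≤ finrank ℂ V)
    (hsup : Module.End.eigenspace h 1 ⊔ Module.End.eigenspace h 0 ⊔ Module.End.eigenspace h (-1) = ⊤)
    (h1 : finrank ℂ (Module.End.eigenspace h 1) = s) (h2 : finrank ℂ (Module.End.eigenspace h (-1)) = s)
    (hx1 : ¬ LT.Exc s (finrank ℂ V - 2 * s)) (hx2 : ¬ ExcS s (finrank ℂ V - 2 * s))
    (x : Module.End ℂ V) (hx : ∀ u v, ω (x u) v = -ω u (x v)) : x ∈ L := by
  rcases hω with hsymm | halt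
  · refine LT.core_lt (Or.inl hsymm) hnd hsimp hirr hsk h hh hs h2s h5 hsup h1 h2 ?_ x hx
    intro ι _ Φ X l y v hd ht hp
    rcases LT.list43 hd ht (hp hsymm) h5 with h3 | h3 | h3
    · exact Or.inl h3
    · exact Or.inr h3
    · exact absurd h3 hx1
  · refine LT.core_ltO halt hnd hsimp hirr hsk h hh hs h2s h5 hsup h1 h2 ?_ x hx
    intro ι _ Φ X l y v hd ht hp
    rcases listS hd ht hp h5 with h3 | h3
    · exact h3
    · exact absurd h3 hx2

/-- **The hypothesis of the block side.** -/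
theorem goodXU : MH.GoodXU ExcU := by
  intro r a b c ha hc hab hx
  refine core3_of ha hc ?_ ?_
  · intro ι _ Φ X l y v h
    exact (listU (hab.imp_right And.right) h).resolve_right hx
  · intro hac hr
    subst hac
    obtain ⟨h9, hb⟩ := hab.resolve_left fun h => h rfl
    refine ⟨h9, ?_⟩
    intro ω hω hnd L hL hirr hsk q hq hsup h1 h0 hm x hxs
    have hfr : finrank ℂ (Fin r → ℂ) = r := by rw [Module.finrank_fintype_fun_eq_card, Fintype.card_fin]
    have hsub : r - 2 * a = b := by omega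
    refine self3_55 hω hnd hL hirr hsk q hq ha (by rw [hfr]; omega) (by rw [hfr]; omega) hsup h1 hm ?_ ?_ x hxs
    · intro hE
      rw [hfr, hsub] at hE
      exact hx (by unfold ExcU; exact Or.inr (Or.inr (Or.inr (Or.inr (Or.inr (Or.inr ⟨rfl, Or.inl hE⟩))))))
    · intro hE
      rw [hfr, hsub] at hE
      exact hx (by unfold ExcU; exact Or.inr (Or.inr (Or.inr (Or.inr (Or.inr (Or.inr ⟨rfl, Or.inr hE⟩))))))

end L2
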