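import Pool.Agent.Helper55.L2.Data
import Pool.Agent.Helper14.L2.Form3
import Pool.Agent.Helper43.L2.Core3

/-!
Project L2 (MP_b8862a_ag): the core statement for three numbers, from the list and the self-dual case.
-/

set_option linter.unusedSectionVars false
set_option linter.unusedVariables false

open Module LieModule LieAlgebra LieAlgebra.IsKilling AddMonoidAlgebra MTP.MF PF PF.W PF.L TF PW PX AT
open Pool.Agent.Helper54.MT (semisimple_of_diag exists_cartan_end killing_of)

attribute [local instance 100] LieRing.ofAssociativeRing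

namespace L2

/-- **The core statement from the list and the self-dual case.** -/
theorem core3_of {r a b c : ℕ} (ha : 0 < a) (hc : 0 < c)
    (hE : ∀ {ι : Type} [Fintype ι] (Φ X : Finset (EuclideanSpace ℝ ι)) (l y v : EuclideanSpace ℝ ι),
      DU Φ X a b c l y v → TypeS Φ X)
    (hS : a = c → a + b + c = r → 9 ≤ r ∧ ∀ ω : LinearMap.BilinForm ℂ (Fin r → ℂ), (ω.IsSymm ∨ ω.IsAlt) → ω.Nondegenerate →
      ∀ (L : LieSubalgebra ℂ (Module.End ℂ (Fin r → ℂ))), LieAlgebra.IsSimple ℂ L →
      (∀ W : Submodule ℂ (Fin r → ℂ), (∀ x ∈ L, ∀ u ∈ W, x u ∈ W) → W = ⊥ ∨ W = ⊤) →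
      (∀ x ∈ L, ∀ u v, ω (x u) v = -ω u (x v)) → ∀ q ∈ L,
      Module.End.eigenspace q 1 ⊔ Module.End.eigenspace q 0 ⊔ Module.End.eigenspace q (-1) = ⊤ →
      finrank ℂ (Module.End.eigenspace q 1) = a → finrank ℂ (Module.End.eigenspace q 0) = b →
      finrank ℂ (Module.End.eigenspace q (-1)) = a → ∀ x : Module.End ℂ (Fin r → ℂ),
        (∀ u v, ω (x u) v = -ω u (x v)) → x ∈ L) : MH.Core3 r a b c := by
  classical
  intro L hL hirr q t hq hq0 hsup h1 h0 hm
  have hVn : Nontrivial (Fin r → ℂ) := by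
    by_contra hcon
    rw [not_nontrivial_iff_subsingleton] at hcon
    apply hq0
    ext u
    exact congrFun (Subsingleton.elim _ _) _
  have hk : IsKilling ℂ L := inferInstance
  have hdiag : (⨆ c : ℂ, Module.End.eigenspace q c) = ⊤ := by
    rw [eq_top_iff, ← hsup]
    refine sup_le (sup_le ?_ ?_) ?_
    · exact le_iSup (fun c : ℂ => Module.End.eigenspace q c) _
    · exact le_iSup (fun c : ℂ => Module.End.eigenspace q c) _
    · exact le_iSup (fun c : ℂ => Module.End.eigenspace q c) _
  obtain ⟨H, hH, hyH⟩ := exists_cartan_end (L := L) ⟨q, hq⟩ (semisimple_of_diag hdiag)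
  have hirrR : (rootSystem H).IsIrreducible := inferInstance
  have hne : Nonempty H.root := by
    by_contra hcon
    rw [not_nonempty_iff] at hcon
    have hN : Nontrivial H := RootPairing.IsIrreducible.nontrivial' (rootSystem H)
    have h1 : (⊤ : Submodule ℂ H) = ⊥ := by
      have h2 : (rootSystem H).corootSpan ℂ = ⊤ := RootPairing.IsRootSystem.span_coroot_eq_top
      rw [← h2, RootPairing.corootSpan, Set.range_eq_empty, Submodule.span_empty]
    exact bot_ne_top h1.symm
  have hirr' : ∀ W : Submodule ℂ (Fin r → ℂ), (∀ x : L, ∀ u ∈ W, ⁅x, u⁆ ∈ W) → W = ⊥ ∨ W = ⊤ :=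
    fun W hW => hirr W fun z hz w hw => hW ⟨z, hz⟩ w hw
  have hfaith : ∀ x : L, (∀ u : Fin r → ℂ, ⁅x, u⁆ = 0) → x = 0 := by
    intro x hx
    apply Subtype.ext
    exact LinearMap.ext fun u => hx u
  obtain ⟨m, ⟨B⟩⟩ := exists_WB (V := Fin r → ℂ) (H := H) hirr'
  have hcard : Fintype.card (Fin m) = finrank ℂ (Fin r → ℂ) := by
    rw [Module.finrank_eq_card_basis B.v]
  have hI : Nonempty (Fin m) := by
    rw [← Fintype.card_pos_iff, hcard]
    exact finrank_pos
  obtain ⟨y', hy'⟩ : ∃ y' : H, y' = ⟨⟨q, hq⟩, hyH⟩ := ⟨_, rfl⟩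
  have hact : ∀ i, q (B.v i) = B.w i y' • B.v i := by
    intro i
    have h1 := B.lie_v i y'
    rw [hy'] at h1 ⊢
    exact h1
  -- the eigenvalues
  have hex : ∀ i, ∃ e : ℤ, (e = 1 ∨ e = 0 ∨ e = -1) ∧ B.w i y' = (t : ℂ) + ((e : ℤ) : ℂ) := by
    intro i
    by_contra! hcon
    have n1 : (t : ℂ) + 1 ≠ B.w i y' := by
      intro hc
      exact hcon 1 (Or.inl rfl) (by rw [← hc]; norm_num)
    have n0 : (t : ℂ) ≠ B.w i y' := by
      intro hc
      exact hcon 0 (Or.inr (Or.inl rfl)) (by rw [← hc]; norm_num)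
    have nm : (t : ℂ) - 1 ≠ B.w i y' := by
      intro hc
      exact hcon (-1) (Or.inr (Or.inr rfl)) (by rw [← hc]; push_cast; ring)
    have h1 := Module.End.eigenspaces_iSupIndep q (B.w i y')
    have h2 : (⊤ : Submodule ℂ (Fin r → ℂ)) ≤ ⨆ j, ⨆ (_ : j ≠ B.w i y'), Module.End.eigenspace q j := by
      rw [← hsup]
      refine sup_le (sup_le ?_ ?_) ?_
      · exact le_iSup₂ (f := fun (j : ℂ) (_ : j ≠ B.w i y') => Module.End.eigenspace q j) _ n1
      · exact le_iSup₂ (f := fun (j : ℂ) (_ : j ≠ B.w i y') => Module.End.eigenspace q j) _ n0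
      · exact le_iSup₂ (f := fun (j : ℂ) (_ : j ≠ B.w i y') => Module.End.eigenspace q j) _ nm
    rw [top_le_iff] at h2
    rw [h2, disjoint_top] at h1
    have h3 : B.v i ∈ Module.End.eigenspace q (B.w i y') := by
      rw [Module.End.mem_eigenspace_iff]
      exact hact i
    rw [h1, Submodule.mem_bot] at h3
    exact B.v.ne_zero i h3
  choose e he3 he using hex
  have hρ : ∀ k : ℤ, Fintype.card {i // e i = k} = finrank ℂ (Module.End.eigenspace q ((t : ℂ) + (k : ℂ))) := by
    intro k
    rw [finrank_eig_diag B.v q (fun i => B.w i y') hact, Fintype.card_subtype]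
    congr 1
    ext i
    rw [Finset.mem_filter, Finset.mem_filter, he i]
    constructor
    · rintro ⟨-, h2⟩
      exact ⟨Finset.mem_univ _, by rw [h2]⟩
    · rintro ⟨-, h2⟩
      refine ⟨Finset.mem_univ _, ?_⟩
      have h3 := add_left_cancel h2
      exact_mod_cast h3
  have c1 : Fintype.card {i // e i = 1} = a := by
    rw [hρ 1, Int.cast_one]
    exact h1
  have c0 : Fintype.card {i // e i = 0} = b := by
    rw [hρ 0, Int.cast_zero, add_zero]
    exact h0
  have cm : Fintype.card {i // e i = -1} = c := by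
    rw [hρ (-1)]
    have e1 : (t : ℂ) + ((-1 : ℤ) : ℂ) = (t : ℂ) - 1 := by push_cast; ring
    rw [e1]
    exact hm
  obtain ⟨bs, k, z, v, τ, hb, hd, hdom, hl⟩ := exists_d0 B hirr' hfaith he3 he c1 c0 cm ha hc
  by_cases hn : -PF.CC.vec (PF.CC.wt B k) ∈ PF.CC.Xw B
  · right
    have hac : a = c := by
      by_contra hac
      exact hd.nsd hdom hl hac hn
    have hr : a + b + c = r := by
      have h2 : ∀ i, 1 = (if e i = 1 then 1 else 0) + (if e i = 0 then 1 else 0) + (if e i = -1 then 1 else 0) := by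
        intro i
        rcases he3 i with h | h | h <;> rw [h] <;> norm_num
      have h3 : Fintype.card (Fin m) = a + b + c := by
        rw [← Finset.card_univ, Finset.card_eq_sum_ones, Finset.sum_congr rfl fun i _ => h2 i, Finset.sum_add_distrib,
          Finset.sum_add_distrib, ← Finset.card_filter, ← Finset.card_filter, ← Finset.card_filter, ← Fintype.card_subtype,
          ← Fintype.card_subtype, ← Fintype.card_subtype, c1, c0, cm]
      rw [← h3, hcard, Module.finrank_fintype_fun_eq_card, Fintype.card_fin]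
    obtain ⟨h9, hS'⟩ := hS hac hr
    obtain ⟨ω, hω, hnd, hsk⟩ := exists_form3 B hirr' hfaith bs hb hn
    have ht : (t : ℂ) = 0 := by
      have h2 := sum_w_apply B y'
      rw [Finset.sum_congr rfl fun i _ => he i, Finset.sum_add_distrib, Finset.sum_const, Finset.card_univ,
        nsmul_eq_mul] at h2
      have h3 : ∑ i, e i = (a : ℤ) - c := by
        have h2 : ∀ i, e i = (if e i = 1 then (1 : ℤ) else 0) - (if e i = -1 then (1 : ℤ) else 0) := by
          intro i
          rcases he3 i with h | h | h <;> rw [h] <;> norm_num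
        rw [Finset.sum_congr rfl fun i _ => h2 i, Finset.sum_sub_distrib, Finset.sum_boole, Finset.sum_boole,
          ← Fintype.card_subtype, ← Fintype.card_subtype, c1, cm]
      have h4 : (∑ i, ((e i : ℤ) : ℂ)) = 0 := by
        rw [← Int.cast_sum, h3, hac]
        simp
      rw [h4, add_zero, mul_eq_zero] at h2
      rcases h2 with h2 | h2
      · exfalso
        have h5 : Fintype.card (Fin m) ≠ 0 := Fintype.card_ne_zero
        exact h5 (by exact_mod_cast h2)
      · exact h2
    rw [ht, zero_add] at hsup h1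
    rw [zero_sub] at hsup
    rw [ht, zero_sub] at hm
    rw [ht] at h0
    refine ⟨h9, ω, hω, hnd, fun x => ⟨fun hx u v => hsk ⟨x, hx⟩ u v, fun hx => ?_⟩⟩
    exact hS' ω hω hnd L hL hirr (fun x hx u v => hsk ⟨x, hx⟩ u v) q hq hsup h1 h0 (by rw [hm, hac]) x hx
  · left
    have hS1 := hE _ _ _ _ _ (hd.du hdom hl hn)
    intro x hx
    obtain ⟨z, hz⟩ := typeS_sl B hirr' hfaith hS1 x hx
    have : (z : Module.End ℂ (Fin r → ℂ)) = x := LinearMap.ext fun u => hz u
    rw [← this]
    exact z.2

end L2
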