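import Pool.Agent.Helper55.L2.W0
import Pool.Agent.Helper2.LT.Dom

/-!
Project L2 (MP_b8862a_ag), block DATA: a Weyl conjugate of the grading element is dominant.
-/

set_option linter.unusedSectionVars false
set_option linter.unusedVariables false

open Module PF TF PW AT

namespace L2

variable {E : Type*} [NormedAddCommGroup E] [InnerProductSpace ℝ E] {Φ X : Finset E} {a b c n m : ℕ} {l y v : E} {t : ℝ}

/-- The data before the grading element is dominant. -/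
structure D0 (Φ X : Finset E) (a b c : ℕ) (t : ℝ) (l y v : E) : Prop extends Wd' Φ X (a + b + c) l v where
  a_pos : 0 < a
  c_pos : 0 < c
  top : LT.Top Φ X l v
  y_mem : y ∈ Submodule.span ℝ (Φ : Set E)
  lev : ∀ r ∈ Φ, ∃ k : ℤ, (inner ℝ r y : ℝ) = k
  tt : ((a : ℝ) + b + c) * t = c - a
  lv : ∀ x ∈ X, (inner ℝ x y : ℝ) = t + 1 ∨ (inner ℝ x y : ℝ) = t ∨ (inner ℝ x y : ℝ) = t - 1
  hi : ∃ x ∈ X, (inner ℝ x y : ℝ) = t + 1
  lo : ∃ x ∈ X, (inner ℝ x y : ℝ) = t - 1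
  idt : ((a : ℝ) + b + c) ^ 2 * cas Φ l * inner ℝ y y =
    (((a : ℝ) + b + c) * (a + c) - ((a : ℝ) - c) ^ 2) * (finrank ℝ (Submodule.span ℝ (Φ : Set E)) + Φ.card)

/-- the reflection of the grading element -/
theorem D0.refl (h : D0 Φ X a b c t l y v) {r : E} (hr : r ∈ Φ) : D0 Φ X a b c t l (y - co r y • r) v := by
  have hX : ∀ x ∈ X, x - co r x • r ∈ X := fun x hx => sat_refl h.rs h.sat hr hx
  have hi := h.rs.refl r hr
  have hr0 : r ≠ 0 := h.rs.ne_zero r hr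
  have hback : ∀ x ∈ X, ∃ z ∈ X, z - co r z • r = x := by
    intro x hx
    refine ⟨_, hX x hx, ?_⟩
    have h1 := LT.rf_rf hr0 x
    rw [LT.rf_apply, LT.rf_apply] at h1
    exact h1
  refine ⟨h.toWd', h.a_pos, h.c_pos, h.top, ?_, ?_, h.tt, ?_, ?_, ?_, ?_⟩
  · exact Submodule.sub_mem _ h.y_mem (Submodule.smul_mem _ _ (Submodule.subset_span (Finset.mem_coe.2 hr)))
  · intro s hs
    obtain ⟨k, hk⟩ := h.lev _ (hi s hs)
    exact ⟨k, by rw [← LT.refl_inner, hk]⟩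
  · intro x hx
    rw [← LT.refl_inner]
    exact h.lv _ (hX x hx)
  · obtain ⟨x, hx, hxy⟩ := h.hi
    obtain ⟨z, hz, rfl⟩ := hback x hx
    exact ⟨z, hz, by rw [← LT.refl_inner, hxy]⟩
  · obtain ⟨x, hx, hxy⟩ := h.lo
    obtain ⟨z, hz, rfl⟩ := hback x hx
    exact ⟨z, hz, by rw [← LT.refl_inner, hxy]⟩
  · rw [← h.idt]
    congr 1
    exact h.rs.inner_refl hr y y

theorem D0.int_v (h : D0 Φ X a b c t l y v) : ∃ k : ℤ, (inner ℝ v y : ℝ) = k := by
  classical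
  rw [h.v_eq, sum_inner]
  have h1 : ∀ a ∈ Ps Φ v, ∃ k : ℤ, (inner ℝ a y : ℝ) = k := fun a ha => h.lev a (Finset.mem_filter.1 ha).1
  choose! k hk using h1
  exact ⟨∑ a ∈ Ps Φ v, k a, by rw [Finset.sum_congr rfl hk]; push_cast; rfl⟩

/-- a Weyl conjugate of `y` is dominant -/
theorem D0.exists_dom (h : D0 Φ X a b c t l y v) : ∃ y', D0 Φ X a b c t l y' v ∧
    (∀ r ∈ Ps Φ v, 0 ≤ (inner ℝ y' r : ℝ)) ∧ (inner ℝ l y' : ℝ) = t + 1 := by
  classical
  obtain ⟨k0, hk0⟩ := h.int_v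
  obtain ⟨m, ⟨y', hy', hyy, hm⟩, hmax⟩ := Int.exists_greatest_of_bdd
    (P := fun k : ℤ => ∃ y', D0 Φ X a b c t l y' v ∧ ‖y'‖ = ‖y‖ ∧ (inner ℝ v y' : ℝ) = k)
    ⟨⌈‖v‖ * ‖y‖⌉, fun k ⟨y', _, h2, h3⟩ => by
      have h4 := real_inner_le_norm v y'
      rw [h3, h2] at h4
      exact_mod_cast h4.trans (Int.le_ceil _)⟩ ⟨k0, y, h, rfl, hk0⟩
  have hdom : ∀ r ∈ Ps Φ v, 0 ≤ (inner ℝ y' r : ℝ) := by
    intro r hr
    by_contra hneg
    push Not at hneg
    obtain ⟨hr1, hr2⟩ := Finset.mem_filter.1 hr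
    have h1 := hy'.refl hr1
    obtain ⟨k1, hk1⟩ := h1.int_v
    have haa : (0 : ℝ) < inner ℝ r r := real_inner_self_pos.2 (h.rs.ne_zero r hr1)
    have h2 := hmax k1 ⟨_, h1, by
      rw [← hyy, ← sq_eq_sq₀ (norm_nonneg _) (norm_nonneg _), ← real_inner_self_eq_norm_sq, ← real_inner_self_eq_norm_sq]
      exact h.rs.inner_refl hr1 y' y', hk1⟩
    have h3 : (k1 : ℝ) ≤ m := by exact_mod_cast h2
    rw [← hk1, ← hm, inner_sub_right, inner_smul_right] at h3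
    have h4 : co r y' < 0 := by
      unfold co
      exact div_neg_of_neg_of_pos (by linarith) haa
    have h5 : co r y' * (inner ℝ v r : ℝ) < 0 := mul_neg_of_neg_of_pos h4 hr2
    linarith
  refine ⟨y', hy', hdom, ?_⟩
  obtain ⟨x, hx, hxy⟩ := hy'.hi
  have h1 := hy'.top y' hdom x hx
  rcases hy'.lv l hy'.l_mem with h2 | h2 | h2
  · exact h2
  · linarith
  · linarith

/-- the data with a dominant grading element -/
theorem D0.du (h : D0 Φ X a b c t l y v) (hd : ∀ r ∈ Ps Φ v, 0 ≤ (inner ℝ y r : ℝ)) (hl : (inner ℝ l y : ℝ) = t + 1)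
    (hn : -l ∉ X) : DU Φ X a b c l y v where
  toWd' := h.toWd'
  a_pos := h.a_pos
  c_pos := h.c_pos
  top := h.top
  ydom := hd
  y_mem := h.y_mem
  lev := h.lev
  ly := by
    rw [hl, mul_add, h.tt]
    ring
  low := by
    obtain ⟨x, hx, hxy⟩ := h.lo
    exact ⟨x, hx, by rw [hl, hxy]; ring⟩
  ge := by
    intro x hx
    rw [hl]
    rcases h.lv x hx with h2 | h2 | h2 <;> rw [h2] <;> linarith
  idt := h.idt
  nsd := hn

/-- for `a ≠ c` the module is not self-dual -/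
theorem D0.nsd (h : D0 Φ X a b c t l y v) (hd : ∀ r ∈ Ps Φ v, 0 ≤ (inner ℝ y r : ℝ)) (hl : (inner ℝ l y : ℝ) = t + 1)
    (hac : a ≠ c) : -l ∉ X := by
  intro hn
  obtain ⟨o, ho, hoo, hmin⟩ := exists_lo h.toWd' h.top
  have h1 := lo_eq_neg h.dom hoo hmin hn
  obtain ⟨x, hx, hxy⟩ := h.lo
  have h2 := hmin y hd x hx
  rw [h1, inner_neg_left, hl, hxy] at h2
  have h3 : (inner ℝ o y : ℝ) = t - 1 := by
    rcases h.lv o ho with h4 | h4 | h4
    · rw [h1, inner_neg_left, hl] at h4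
      have h5 := hmin y hd x hx
      rw [h1, inner_neg_left, hl, hxy] at h5
      rw [h1, inner_neg_left, hl]
      linarith
    · rw [h1, inner_neg_left, hl] at h4
      have h5 := hmin y hd x hx
      rw [h1, inner_neg_left, hl, hxy] at h5
      rw [h1, inner_neg_left, hl]
      linarith
    · exact h4
  rw [h1, inner_neg_left, hl] at h3
  have h4 : t = 0 := by linarith
  have h5 := h.tt
  rw [h4, mul_zero] at h5
  apply hac
  have h6 : (a : ℝ) = c := by linarith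
  exact_mod_cast h6

end L2
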