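import Pool.Agent.Helper55.L2.Lie
import Pool.Agent.Helper55.L2.Dom

/-!
Project L2 (MP_b8862a_ag), block DATA: from a simple Lie algebra with an element with three eigenvalues to the Euclidean data.
-/

set_option linter.unusedSectionVars false
set_option linter.unusedVariables false

open Module LieModule LieAlgebra LieAlgebra.IsKilling AddMonoidAlgebra MTP.MF PF PF.W PF.L PF.CC TF TF.L PW PX AT

attribute [local instance 100] LieRing.ofAssociativeRing

namespace L2

variable {K : Type*} [Field K] [CharZero K] [IsAlgClosed K]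
  {L : Type*} [LieRing L] [LieAlgebra K L] [FiniteDimensional K L] [IsKilling K L]
  {H : LieSubalgebra K L} [H.IsCartanSubalgebra]
  {V : Type*} [AddCommGroup V] [Module K V] [FiniteDimensional K V]
  [LieRingModule L V] [LieModule K L V] {I : Type*} [Fintype I]

/-- the sum of the weights is zero -/
theorem sum_w_apply (B : WB (V := V) H I) (y : H) : ∑ i, B.w i y = 0 := by
  classical
  have h1 : (∑ i, B.w i : Dual K H) = 0 := by
    apply dual_ext
    intro α
    rw [LinearMap.sum_apply, LinearMap.zero_apply]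
    have h2 := sum_w B α
    have h3 : ((∑ i, wt B i α : ℤ) : K) = 0 := by rw [h2, Int.cast_zero]
    rw [← h3]
    push_cast
    exact Finset.sum_congr rfl fun i _ => wt_spec B i α
  have h4 := congrArg (fun μ : Dual K H => μ y) h1
  simpa using h4

/-- **The data.** -/
theorem exists_d0 (B : WB (V := V) H I) [Nonempty I] [Nonempty H.root] [(rootSystem H).IsIrreducible]
    (hirr : ∀ W : Submodule K V, (∀ x : L, ∀ u ∈ W, ⁅x, u⁆ ∈ W) → W = ⊥ ∨ W = ⊤)
    (hfaith : ∀ x : L, (∀ u : V, ⁅x, u⁆ = 0) → x = 0) {y : H} {t : K} {e : I → ℤ}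
    (he3 : ∀ i, e i = 1 ∨ e i = 0 ∨ e i = -1) (hw : ∀ i, B.w i y = t + (e i : K)) {a b c : ℕ}
    (h1 : Fintype.card {i // e i = 1} = a) (h0 : Fintype.card {i // e i = 0} = b)
    (hm : Fintype.card {i // e i = -1} = c) (ha : 0 < a) (hc : 0 < c) :
    ∃ (bs : (rootSystem H).Base) (k : I) (y' v : EuclideanSpace ℝ H.root) (τ : ℝ),
      (∀ i, Below bs (B.w k) (B.w i)) ∧
      D0 (PF.CC.Ph (rootSystem H)) (PF.CC.Xw B) a b c τ (PF.CC.vec (PF.CC.wt B k)) y' v ∧
      (∀ r ∈ Ps (PF.CC.Ph (rootSystem H)) v, 0 ≤ (inner ℝ y' r : ℝ)) ∧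
      (inner ℝ (PF.CC.vec (PF.CC.wt B k)) y' : ℝ) = τ + 1 := by
  classical
  obtain ⟨N, hN⟩ : ∃ N : ℕ, N = a + b + c := ⟨_, rfl⟩
  have hN0 : 0 < N := by omega
  have hNK : (N : K) ≠ 0 := by exact_mod_cast hN0.ne'
  have hNR : (N : ℝ) ≠ 0 := by exact_mod_cast hN0.ne'
  have hcardI : Fintype.card I = N := by
    have h2 : ∀ i, 1 = (if e i = 1 then 1 else 0) + (if e i = 0 then 1 else 0) + (if e i = -1 then 1 else 0) := by
      intro i
      rcases he3 i with h | h | h <;> rw [h] <;> norm_num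
    rw [← Finset.card_univ, Finset.card_eq_sum_ones, Finset.sum_congr rfl fun i _ => h2 i, Finset.sum_add_distrib,
      Finset.sum_add_distrib, ← Finset.card_filter, ← Finset.card_filter, ← Finset.card_filter, ← Fintype.card_subtype,
      ← Fintype.card_subtype, ← Fintype.card_subtype, h1, h0, hm, hN]
  have hs1 : ∑ i, e i = (a : ℤ) - c := by
    have h2 : ∀ i, e i = (if e i = 1 then (1 : ℤ) else 0) - (if e i = -1 then (1 : ℤ) else 0) := by
      intro i
      rcases he3 i with h | h | h <;> rw [h] <;> norm_num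
    rw [Finset.sum_congr rfl fun i _ => h2 i, Finset.sum_sub_distrib, Finset.sum_boole, Finset.sum_boole,
      ← Fintype.card_subtype, ← Fintype.card_subtype, h1, hm]
  have hs2 : ∑ i, (e i) ^ 2 = (a : ℤ) + c := by
    have h2 : ∀ i, (e i) ^ 2 = (if e i = 1 then (1 : ℤ) else 0) + (if e i = -1 then (1 : ℤ) else 0) := by
      intro i
      rcases he3 i with h | h | h <;> rw [h] <;> norm_num
    rw [Finset.sum_congr rfl fun i _ => h2 i, Finset.sum_add_distrib, Finset.sum_boole, Finset.sum_boole,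
      ← Fintype.card_subtype, ← Fintype.card_subtype, h1, hm]
  have hNt : (N : K) * t = (c : K) - a := by
    have h2 := sum_w_apply B y
    rw [Finset.sum_congr rfl fun i _ => hw i, Finset.sum_add_distrib, Finset.sum_const, Finset.card_univ, hcardI,
      nsmul_eq_mul] at h2
    have h3 : ((∑ i, e i : ℤ) : K) = (a : K) - c := by
      rw [hs1]
      push_cast
      rfl
    rw [Int.cast_sum] at h3
    rw [h3] at h2
    linear_combination h2
  obtain ⟨A, hA⟩ : ∃ A : I → ℤ, A = fun i => (c : ℤ) - a + N * e i := ⟨_, rfl⟩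
  have hAw : ∀ i, B.w i ((N : K) • y) = (A i : K) := by
    intro i
    rw [map_smul, hw, hA, smul_eq_mul, mul_add, hNt]
    push_cast
    ring
  obtain ⟨bs⟩ : Nonempty (rootSystem H).Base := (rootSystem H).nonempty_base
  obtain ⟨k, y', hb, hlev, hroot, hmem, hidt⟩ := exists_in3_b bs B hirr hfaith (y := (N : K) • y) (fun i => 2 * A i)
    (fun i => by rw [hAw i]; push_cast; ring) (fun i j => ⟨A i - A j, by ring⟩)
  obtain ⟨k', v, hb', hPs, hwd⟩ := exists_wd3_b bs B hirr hfaith
  have htt : PF.CC.vec (PF.CC.wt B k') = PF.CC.vec (PF.CC.wt B k) := by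
    have e1 : B.w k' = B.w k := Below.antisymm (hb k') (hb' k)
    congr 1
    funext β
    have e2 := PF.CC.wt_spec B k' β
    rw [e1, PF.CC.wt_spec] at e2
    exact_mod_cast e2.symm
  rw [htt, hcardI, hN] at hwd
  obtain ⟨z, hz⟩ : ∃ z : EuclideanSpace ℝ H.root, z = (N : ℝ)⁻¹ • y' := ⟨_, rfl⟩
  obtain ⟨τ, hτ⟩ : ∃ τ : ℝ, τ = ((c : ℝ) - a) / N := ⟨_, rfl⟩
  have hz1 : ∀ i, (inner ℝ (PF.CC.vec (PF.CC.wt B i)) z : ℝ) = τ + e i := by
    intro i
    rw [hz, inner_smul_right, hlev i, hτ, hA]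
    push_cast
    field_simp
  have hsumA : ∑ i, ((2 * A i : ℤ) : ℝ) ^ 2 = 4 * ((N : ℝ) ^ 2 * (a + c) - N * ((a : ℝ) - c) ^ 2) := by
    have h2 : ∀ i, ((2 * A i : ℤ) : ℝ) ^ 2 = 4 * ((c : ℝ) - a) ^ 2 + 8 * N * ((c : ℝ) - a) * (e i : ℝ) +
        4 * (N : ℝ) ^ 2 * (e i : ℝ) ^ 2 := by
      intro i
      rw [hA]
      push_cast
      ring
    have h3 : ∑ i, (e i : ℝ) = (a : ℝ) - c := by exact_mod_cast hs1
    have h4 : ∑ i, (e i : ℝ) ^ 2 = (a : ℝ) + c := by exact_mod_cast hs2
    rw [Finset.sum_congr rfl fun i _ => h2 i, Finset.sum_add_distrib, Finset.sum_add_distrib, Finset.sum_const,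
      Finset.card_univ, hcardI, nsmul_eq_mul, ← Finset.mul_sum, ← Finset.mul_sum, h3, h4]
    ring
  have hd : D0 (PF.CC.Ph (rootSystem H)) (PF.CC.Xw B) a b c τ (PF.CC.vec (PF.CC.wt B k)) z v := by
    refine ⟨hwd, ha, hc, ?_, ?_, ?_, ?_, ?_, ?_, ?_, ?_⟩
    · intro u hu x hx
      obtain ⟨i, rfl⟩ := (PF.CC.mem_Xw B).1 hx
      obtain ⟨κ, hκ⟩ := LT.vec_below B (hb i)
      rw [hκ, inner_sub_left, sum_inner]
      have h4 : 0 ≤ ∑ j ∈ bs.support, (inner ℝ ((κ j : ℝ) • vec (PF.CC.rt (rootSystem H) j)) u : ℝ) := by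
        refine Finset.sum_nonneg fun j hj => ?_
        rw [inner_smul_left, real_inner_comm]
        refine mul_nonneg (by simp) (hu _ ?_)
        rw [hPs]
        refine Finset.mem_image.2 ⟨j, ?_, rfl⟩
        have := RootPairing.Base.isPos_of_mem_support hj
        simpa [pos] using this
      linarith
    · rw [hz]
      exact Submodule.smul_mem _ _ hmem
    · intro r hr
      obtain ⟨α, rfl⟩ := (PF.CC.mem_Ph _).1 hr
      obtain ⟨q, hq1, hq2⟩ := hroot α
      obtain ⟨i, j, hij⟩ := B.root_apply hfaith α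
      have h2 := hij ((N : K) • y)
      rw [hAw, hAw] at h2
      have h3 : (rootSystem H).root α ((N : K) • y) = α.1 ((N : K) • y) := rfl
      rw [h3] at hq1
      rw [hq1] at h2
      have h4 : A j = q + A i := by exact_mod_cast h2
      have h5 : ∃ m : ℤ, q = N * m := by
        refine ⟨e j - e i, ?_⟩
        have h6 : A j - A i = N * (e j - e i) := by
          rw [hA]
          ring
        linarith
      obtain ⟨m, hm'⟩ := h5
      refine ⟨m, ?_⟩
      rw [hz, inner_smul_right, hq2, hm']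
      push_cast
      field_simp
    · rw [hτ]
      have h2 : ((a : ℝ) + b + c) = N := by rw [hN]; push_cast; ring
      rw [h2]
      field_simp
    · intro x hx
      obtain ⟨i, rfl⟩ := (PF.CC.mem_Xw B).1 hx
      rw [hz1]
      rcases he3 i with h | h | h <;> rw [h]
      · left; norm_num
      · right; left; norm_num
      · right; right; norm_num; ring
    · have h2 : 0 < Fintype.card {i // e i = 1} := by omega
      obtain ⟨⟨i, hi⟩⟩ := Fintype.card_pos_iff.1 h2
      refine ⟨_, (PF.CC.mem_Xw B).2 ⟨i, rfl⟩, ?_⟩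
      rw [hz1, hi]
      norm_num
    · have h2 : 0 < Fintype.card {i // e i = -1} := by omega
      obtain ⟨⟨i, hi⟩⟩ := Fintype.card_pos_iff.1 h2
      refine ⟨_, (PF.CC.mem_Xw B).2 ⟨i, rfl⟩, ?_⟩
      rw [hz1, hi]
      push_cast
      ring
    · have h2 : ((a : ℝ) + b + c) = N := by rw [hN]; push_cast; ring
      rw [h2]
      rw [hsumA, hcardI] at hidt
      have h3 : (inner ℝ z z : ℝ) = (N : ℝ)⁻¹ ^ 2 * inner ℝ y' y' := by
        rw [hz, inner_smul_left, inner_smul_right, conj_trivial]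
        ring
      rw [h3]
      have h4 : (4 * (N : ℝ)) * ((N : ℝ) ^ 2 * cas (Ph (rootSystem H)) (vec (wt B k)) * ((N : ℝ)⁻¹ ^ 2 * inner ℝ y' y')) =
          4 * (N : ℝ) * cas (Ph (rootSystem H)) (vec (wt B k)) * inner ℝ y' y' := by
        field_simp
      have h5 : (4 * (N : ℝ)) ≠ 0 := by positivity
      apply mul_left_cancel₀ h5
      rw [h4, hidt]
      ring
  obtain ⟨z', hz', hdom, hl⟩ := hd.exists_dom
  exact ⟨bs, k, z', v, τ, hb, hz', hdom, hl⟩

end L2
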