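import Pool.Agent.Helper43.L2.Defs

/-!
Project L2 (MP_b8862a_ag): Hodge structures of level two. The list `L2.ExcU` is in `Helper43/L2/Defs.lean`.
-/
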